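import Pool.Agent.helper77.BND.SpecB

/-!
# Project bnd, row BSJ: `K₀(A)` is the union of the images of the `K₀(S m)`
-/

set_option autoImplicit false

open scoped Topology Matrix
open Filter Finset

namespace Pool.Agent.BND

open Pool.Agent.CZ Pool.Agent.PV

theorem BSJ_dense {A : Type} [CStarAlgebra A] (S : ℕ → Subalgebra ℂ A)
    (AY : Subalgebra ℂ A) (hAY : (AY : Set A) = closure (⋃ m, (S m : Set A))) :
    Dense {a : AY | ∃ F : Finset ℕ, a ∈ (S (F.sup id)).comap AY.val} := by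
  intro a
  rw [closure_subtype]
  have h : (a : A) ∈ closure (⋃ m, (S m : Set A)) := by
    rw [← hAY]
    exact a.2
  refine closure_mono ?_ h
  intro b hb
  obtain ⟨m, hm⟩ := Set.mem_iUnion.1 hb
  have hbA : b ∈ AY := by
    have : b ∈ (AY : Set A) := by
      rw [hAY]
      exact subset_closure hb
    exact this
  refine ⟨⟨b, hbA⟩, ⟨{m}, ?_⟩, rfl⟩
  rw [Finset.sup_singleton]
  exact hm

/-- the inclusion -/
def BSJ_psi {A : Type} [CStarAlgebra A] (T AY : Subalgebra ℂ A) : ↥(T.comap AY.val) →+* T where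
  toFun a := ⟨(a : AY), a.2⟩
  map_one' := rfl
  map_mul' _ _ := rfl
  map_zero' := rfl
  map_add' _ _ := rfl

theorem BSJ (hYSU : YSU_stmt) (hBXS : BXS_stmt) (hBOB : BOB_stmt) (hCS0 : CS0_stmt)
    (hFUN : FUN_stmt) : BSJ_stmt := by
  intro B M _ α A _ ι u c hC S hS z
  obtain ⟨xs, hxs, hne, -⟩ := hBXS B M α hC.bs hC.al hC.ali
  obtain ⟨AY, hAY, hO⟩ := hBOB B M α A ι u c hC S hS xs hxs
  obtain ⟨w, hw⟩ := hYSU ↥(XS B) α A ι u c hC.cov xs hne AY hO z
  have hcs : CompleteSpace ↥AY := hO.closed.completeSpace_coe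
  obtain ⟨F, w', hw'⟩ := hCS0 ↥AY ℕ (fun F => (S (F.sup id)).comap AY.val) (fun F G hFG a ha =>
      hS.mono (Finset.sup_mono hFG) ha)
    (fun F => (hS.closed (F.sup id)).preimage continuous_subtype_val)
    (BSJ_dense S AY hAY) w
  refine ⟨F.sup id, k0map (BSJ_psi (S (F.sup id)) AY) w', ?_⟩
  rw [hw, hw', ← hFUN.2.1, ← hFUN.2.1]
  rfl

end Pool.Agent.BND
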